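import Mathlib

set_option autoImplicit false

/-!
# The number of coprime pairs in a box
-/

namespace Pool.Agent.Helper36z

open Finset

/-! The next three lemmas are copied from the starting file `Pool/Agent/TH266/N4_S2S3.lean`. -/

lemma mob_hasSum : HasSum (fun n : ℕ => ((ArithmeticFunction.moebius n : ℤ) : ℝ) / (n:ℝ) ^ 2) (6 / Real.pi ^ 2) := by
  have h2 : (1:ℝ) < (2:ℂ).re := by norm_num
  have h1 := ArithmeticFunction.LSeries_zeta_mul_Lseries_moebius h2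
  rw [ArithmeticFunction.LSeries_zeta_eq_riemannZeta h2, riemannZeta_two] at h1
  have hs := (ArithmeticFunction.LSeriesSummable_moebius_iff (s := 2)).2 h2
  have hs2 : HasSum (LSeries.term (fun n => ((ArithmeticFunction.moebius n : ℤ) : ℂ)) 2) (LSeries (fun n => ((ArithmeticFunction.moebius n : ℤ) : ℂ)) 2) := hs.hasSum
  have hv : LSeries (fun n => ((ArithmeticFunction.moebius n : ℤ) : ℂ)) 2 = ((6 / Real.pi ^ 2 : ℝ) : ℂ) := by
    have hpi : (Real.pi : ℂ) ≠ 0 := by exact_mod_cast Real.pi_ne_zero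
    have : ((Real.pi:ℂ) ^ 2 / 6) ≠ 0 := by
      apply div_ne_zero (pow_ne_zero _ hpi) (by norm_num)
    have h3 : LSeries (fun n => ((ArithmeticFunction.moebius n : ℤ) : ℂ)) 2 = ((Real.pi:ℂ) ^ 2 / 6)⁻¹ := by
      apply eq_inv_of_mul_eq_one_right
      exact h1
    rw [h3]; push_cast; rw [inv_div]
  rw [hv] at hs2
  have h4 : (LSeries.term (fun n => ((ArithmeticFunction.moebius n : ℤ) : ℂ)) 2) =
      fun n : ℕ => ((((ArithmeticFunction.moebius n : ℤ) : ℝ) / (n:ℝ) ^ 2 : ℝ) : ℂ) := by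
    funext n
    rw [LSeries.term_def]
    split_ifs with h
    · simp [h]
    · push_cast
      congr 1
      norm_cast
  rw [h4] at hs2
  exact Complex.hasSum_ofReal.1 hs2

lemma sq_tail (N M : ℕ) (hN : 1 ≤ N) (hNM : N ≤ M) : ∑ n ∈ Ioc N M, (1:ℝ) / (n:ℝ)^2 ≤ 1 / N - 1 / M := by
  induction M, hNM using Nat.le_induction with
  | base => simp
  | succ M hM ih =>
    rw [Finset.sum_Ioc_succ_top (by omega)]
    have hM0 : (0:ℝ) < M := by exact_mod_cast (by omega : 0 < M)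
    have : (1:ℝ) / ((M+1:ℕ):ℝ)^2 ≤ 1 / M - 1 / ((M+1:ℕ):ℝ) := by
      push_cast
      rw [div_sub_div _ _ hM0.ne' (by positivity), div_le_div_iff₀ (by positivity) (by positivity)]
      nlinarith
    linarith

lemma mob_tail (N : ℕ) (hN : 1 ≤ N) :
    |(∑ e ∈ Icc 1 N, ((ArithmeticFunction.moebius e : ℤ) : ℝ) / (e:ℝ) ^ 2) - 6 / Real.pi ^ 2| ≤ (1:ℝ) / N := by
  have h1 := mob_hasSum.tendsto_sum_nat
  have h2 : Filter.Tendsto (fun M : ℕ => |(∑ e ∈ Icc 1 N, ((ArithmeticFunction.moebius e : ℤ) : ℝ) / (e:ℝ) ^ 2) -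
      ∑ i ∈ range M, ((ArithmeticFunction.moebius i : ℤ) : ℝ) / (i:ℝ) ^ 2|) Filter.atTop
      (nhds |(∑ e ∈ Icc 1 N, ((ArithmeticFunction.moebius e : ℤ) : ℝ) / (e:ℝ) ^ 2) - 6 / Real.pi ^ 2|) :=
    (tendsto_const_nhds.sub h1).abs
  apply le_of_tendsto h2
  filter_upwards [Filter.eventually_ge_atTop (N+1)] with M hM
  obtain ⟨K, rfl⟩ : ∃ K, M = K + 1 := ⟨M - 1, by omega⟩
  have h3 : ∑ i ∈ range (K+1), ((ArithmeticFunction.moebius i : ℤ) : ℝ) / (i:ℝ) ^ 2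
      = (∑ e ∈ Icc 1 N, ((ArithmeticFunction.moebius e : ℤ) : ℝ) / (e:ℝ) ^ 2) +
        ∑ e ∈ Ioc N K, ((ArithmeticFunction.moebius e : ℤ) : ℝ) / (e:ℝ) ^ 2 := by
    have hd : range (K+1) = insert 0 (Icc 1 N ∪ Ioc N K) := by
      ext x; simp only [mem_range, mem_insert, mem_union, mem_Icc, mem_Ioc]; omega
    rw [hd, Finset.sum_insert (by simp), Finset.sum_union]
    · simp
    · rw [Finset.disjoint_left]; intro x hx hy; simp only [mem_Icc, mem_Ioc] at hx hy; omega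
  rw [h3]
  have h4 : ∀ a b : ℝ, |a - (a + b)| = |b| := by intro a b; rw [← abs_neg b]; congr 1; ring
  rw [h4]
  refine (Finset.abs_sum_le_sum_abs _ _).trans ?_
  calc ∑ e ∈ Ioc N K, |((ArithmeticFunction.moebius e : ℤ) : ℝ) / (e:ℝ) ^ 2|
      ≤ ∑ e ∈ Ioc N K, (1:ℝ) / (e:ℝ)^2 := by
        apply Finset.sum_le_sum; intro e _
        rw [abs_div, abs_of_nonneg (by positivity : (0:ℝ) ≤ (e:ℝ)^2)]
        apply div_le_div_of_nonneg_right _ (by positivity)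
        exact_mod_cast ArithmeticFunction.abs_moebius_le_one
    _ ≤ 1 / N - 1 / K := sq_tail N K hN (by omega)
    _ ≤ 1 / N := by have : (0:ℝ) ≤ 1 / K := by positivity
                    linarith


open ArithmeticFunction

lemma sum_mob (g : ℕ) (hg : g ≠ 0) : ∑ d ∈ g.divisors, (moebius d : ℤ) = if g = 1 then 1 else 0 := by
  have h := congrArg (fun f : ArithmeticFunction ℤ => f g) moebius_mul_coe_zeta
  simp only [one_apply] at h
  rw [← h, coe_mul_zeta_apply]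

/-- number of coprime pairs in `[1,N] × [1,M]` -/
def cop (N M : ℕ) : ℕ := ((Icc 1 N ×ˢ Icc 1 M).filter (fun p : ℕ × ℕ => p.1.Coprime p.2)).card

lemma mult_card (N d : ℕ) (hd : 1 ≤ d) : ((Icc 1 N).filter (fun n => d ∣ n)).card = N / d := by
  rw [← Nat.Ioc_filter_dvd_card_eq_div N d]
  congr 1

lemma cop_eq (N M K : ℕ) (hK : N ≤ K) :
    (cop N M : ℤ) = ∑ d ∈ Icc 1 K, (moebius d : ℤ) * ((N / d : ℕ) * (M / d : ℕ) : ℤ) := by
  have h1 : (cop N M : ℤ) = ∑ p ∈ Icc 1 N ×ˢ Icc 1 M, ∑ d ∈ (Icc 1 K).filter (fun d => d ∣ p.1 ∧ d ∣ p.2), (moebius d : ℤ) := by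
    unfold cop
    rw [card_filter]
    push_cast
    refine sum_congr rfl fun p hp => ?_
    rw [mem_product, mem_Icc, mem_Icc] at hp
    have h2 : (Icc 1 K).filter (fun d => d ∣ p.1 ∧ d ∣ p.2) = (p.1.gcd p.2).divisors := by
      ext d
      simp only [mem_filter, mem_Icc, Nat.mem_divisors]
      constructor
      · rintro ⟨h3, h4, h5⟩
        exact ⟨Nat.dvd_gcd h4 h5, (Nat.gcd_pos_of_pos_left _ (by omega)).ne'⟩
      · rintro ⟨h3, h4⟩
        have h5 : d ∣ p.1 := h3.trans (Nat.gcd_dvd_left _ _)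
        have h6 : d ∣ p.2 := h3.trans (Nat.gcd_dvd_right _ _)
        have h7 := Nat.le_of_dvd (by omega) h5
        have h8 := Nat.pos_of_dvd_of_pos h5 (by omega)
        exact ⟨⟨h8, by omega⟩, h5, h6⟩
    rw [h2, sum_mob _ (Nat.gcd_pos_of_pos_left _ (by omega)).ne']
  rw [h1]
  simp_rw [sum_filter]
  rw [sum_comm]
  refine sum_congr rfl fun d hd => ?_
  rw [mem_Icc] at hd
  rw [← sum_filter, sum_const, nsmul_eq_mul, mul_comm]
  congr 1
  have h3 : (Icc 1 N ×ˢ Icc 1 M).filter (fun p : ℕ × ℕ => d ∣ p.1 ∧ d ∣ p.2) =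
      ((Icc 1 N).filter (fun n => d ∣ n)) ×ˢ ((Icc 1 M).filter (fun n => d ∣ n)) := by
    ext p
    simp only [mem_filter, mem_product]
    tauto
  rw [h3, card_product, mult_card N d hd.1, mult_card M d hd.1]
  push_cast
  ring

lemma fl_bound (N M d : ℕ) (hd : 1 ≤ d) :
    |((N / d : ℕ) : ℝ) * ((M / d : ℕ) : ℝ) - (N : ℝ) * M / (d : ℝ) ^ 2| ≤ (N + M) / d := by
  have hd0 : (0 : ℝ) < d := by exact_mod_cast hd
  have a1 : ((N / d : ℕ) : ℝ) ≤ (N : ℝ) / d := Nat.cast_div_le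
  have a2 : ((M / d : ℕ) : ℝ) ≤ (M : ℝ) / d := Nat.cast_div_le
  have b1 : (N : ℝ) / d ≤ ((N / d : ℕ) : ℝ) + 1 := by
    rw [div_le_iff₀ hd0]
    have := Nat.lt_div_mul_add (a := N) (b := d) (by omega)
    have h2 : (N : ℝ) < ((N / d : ℕ) : ℝ) * d + d := by exact_mod_cast this
    linarith
  have b2 : (M : ℝ) / d ≤ ((M / d : ℕ) : ℝ) + 1 := by
    rw [div_le_iff₀ hd0]
    have := Nat.lt_div_mul_add (a := M) (b := d) (by omega)
    have h2 : (M : ℝ) < ((M / d : ℕ) : ℝ) * d + d := by exact_mod_cast this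
    linarith
  have c1 : (0 : ℝ) ≤ ((N / d : ℕ) : ℝ) := Nat.cast_nonneg _
  have c2 : (0 : ℝ) ≤ ((M / d : ℕ) : ℝ) := Nat.cast_nonneg _
  have e1 : (N : ℝ) * M / (d : ℝ) ^ 2 = (N : ℝ) / d * (M / d) := by field_simp
  have e2 : ((N : ℝ) + M) / d = (N : ℝ) / d + M / d := add_div _ _ _
  rw [e1, e2]
  set u := ((N / d : ℕ) : ℝ)
  set v := ((M / d : ℕ) : ℝ)
  set s := (N : ℝ) / d
  set t := (M : ℝ) / d
  rw [abs_le]
  constructor
  · nlinarith
  · nlinarith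

lemma harm (K : ℕ) (hK : 1 ≤ K) : ∑ d ∈ Icc 1 K, (1 : ℝ) / d ≤ 1 + Real.log K := by
  have h := harmonic_le_one_add_log K
  rw [harmonic_eq_sum_Icc] at h
  push_cast at h
  simpa [one_div] using h

theorem cop_bound (N M : ℕ) (h : 1 ≤ N + M) :
    |(cop N M : ℝ) - 6 / Real.pi ^ 2 * (N * M)| ≤ (N + M) * (2 + Real.log (N + M)) := by
  set K := N + M with hK
  have h0 : (cop N M : ℝ) = ∑ d ∈ Icc 1 K, ((moebius d : ℤ) : ℝ) * (((N / d : ℕ) : ℝ) * ((M / d : ℕ) : ℝ)) := by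
    have := congrArg (fun z : ℤ => (z : ℝ)) (cop_eq N M K (by omega))
    push_cast at this
    exact this
  have hK0 : (0 : ℝ) < K := by exact_mod_cast h
  have h1 : |∑ d ∈ Icc 1 K, ((moebius d : ℤ) : ℝ) * (((N / d : ℕ) : ℝ) * ((M / d : ℕ) : ℝ)) -
      ∑ d ∈ Icc 1 K, ((moebius d : ℤ) : ℝ) / (d : ℝ) ^ 2 * (N * M)| ≤ (N + M) * (1 + Real.log K) := by
    rw [← sum_sub_distrib]
    refine (abs_sum_le_sum_abs _ _).trans ?_
    have h2 : ∀ d ∈ Icc 1 K, |((moebius d : ℤ) : ℝ) * (((N / d : ℕ) : ℝ) * ((M / d : ℕ) : ℝ)) -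
        ((moebius d : ℤ) : ℝ) / (d : ℝ) ^ 2 * (N * M)| ≤ ((N : ℝ) + M) * (1 / d) := by
      intro d hd
      rw [mem_Icc] at hd
      have h3 : ((moebius d : ℤ) : ℝ) * (((N / d : ℕ) : ℝ) * ((M / d : ℕ) : ℝ)) -
        ((moebius d : ℤ) : ℝ) / (d : ℝ) ^ 2 * (N * M) = ((moebius d : ℤ) : ℝ) *
          (((N / d : ℕ) : ℝ) * ((M / d : ℕ) : ℝ) - (N : ℝ) * M / (d : ℝ) ^ 2) := by ring
      rw [h3, abs_mul]
      have h4 : |((moebius d : ℤ) : ℝ)| ≤ 1 := by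
        exact_mod_cast abs_moebius_le_one (n := d)
      have h5 := fl_bound N M d hd.1
      calc |((moebius d : ℤ) : ℝ)| * |((N / d : ℕ) : ℝ) * ((M / d : ℕ) : ℝ) - (N : ℝ) * M / (d : ℝ) ^ 2|
          ≤ 1 * (((N : ℝ) + M) / d) := mul_le_mul h4 h5 (abs_nonneg _) zero_le_one
        _ = ((N : ℝ) + M) * (1 / d) := by ring
    refine (sum_le_sum h2).trans ?_
    rw [← mul_sum]
    exact mul_le_mul_of_nonneg_left (harm K h) (by positivity)
  have h6 : |∑ d ∈ Icc 1 K, ((moebius d : ℤ) : ℝ) / (d : ℝ) ^ 2 * ((N : ℝ) * M) - 6 / Real.pi ^ 2 * ((N : ℝ) * M)| ≤ (N : ℝ) + M := by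
    rw [← sum_mul, ← sub_mul, abs_mul]
    have h7 := mob_tail K h
    have h8 : |(N : ℝ) * M| = N * M := abs_of_nonneg (by positivity)
    rw [h8]
    have h9 : (N : ℝ) * M ≤ K * K := by
      have : (K : ℝ) = N + M := by rw [hK]; push_cast; rfl
      rw [this]
      have q1 : (0 : ℝ) ≤ N := Nat.cast_nonneg _
      have q2 : (0 : ℝ) ≤ M := Nat.cast_nonneg _
      nlinarith
    calc _ ≤ (1 : ℝ) / K * (N * M) := mul_le_mul_of_nonneg_right h7 (by positivity)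
      _ ≤ (1 : ℝ) / K * (K * K) := mul_le_mul_of_nonneg_left h9 (by positivity)
      _ = K := by field_simp
      _ = N + M := by rw [hK]; push_cast; rfl
  have h10 : ((K : ℕ) : ℝ) = N + M := by rw [hK]; push_cast; rfl
  have h12 : Real.log ((N : ℝ) + M) = Real.log K := by rw [h10]
  rw [h0, h12]
  have h13 : ((N : ℝ) + M) * (2 + Real.log K) = (N + M) * (1 + Real.log K) + (N + M) := by ring
  rw [h13]
  have h11 := abs_sub_le (∑ d ∈ Icc 1 K, ((moebius d : ℤ) : ℝ) * (((N / d : ℕ) : ℝ) * ((M / d : ℕ) : ℝ)))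
    (∑ d ∈ Icc 1 K, ((moebius d : ℤ) : ℝ) / (d : ℝ) ^ 2 * (N * M)) (6 / Real.pi ^ 2 * (N * M))
  linarith [h1, h6, h11]

end Pool.Agent.Helper36z
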