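import Mathlib
import Pool.Agent.Helper36z.Cop
import Pool.Agent.TH709.NC.Lines

set_option autoImplicit false

/-!
# Coprime pairs `(n, m)` with `|a ^ n - b ^ m| ≤ x`
-/

namespace Pool.Agent.Helper36z

open Real Filter Set Asymptotics
open Pool.Agent.H491R3.PE Pool.Agent.TH709.NC

variable {a b : ℝ}

/-- coprime pairs -/
def Cp : Set (ℕ × ℕ) := {p | p.1.Coprime p.2}

lemma cop_bound' (N M : ℕ) {c L : ℝ} (hc : 0 ≤ c) (hL : 0 ≤ L) (h : (N : ℝ) + M ≤ c * L) :
    |(cop N M : ℝ) - 6 / π ^ 2 * (N * M)| ≤ c * (2 + log (1 + c)) * (L * (1 + log (1 + L))) := by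
  have k1 : 0 ≤ log (1 + c) := log_nonneg (by linarith)
  have k2 : 0 ≤ log (1 + L) := log_nonneg (by linarith)
  rcases Nat.eq_zero_or_pos (N + M) with h0 | h0
  · have hN : N = 0 := by omega
    have hM : M = 0 := by omega
    subst hN
    subst hM
    have : cop 0 0 = 0 := by decide
    rw [this]
    simp only [Nat.cast_zero, mul_zero, sub_zero, abs_zero]
    positivity
  · refine (cop_bound N M h0).trans ?_
    have h1 : (1 : ℝ) ≤ N + M := by exact_mod_cast h0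
    have h2 : (N : ℝ) + M ≤ (1 + c) * (1 + L) := by nlinarith
    have h3 : log ((N : ℝ) + M) ≤ log (1 + c) + log (1 + L) := by
      rw [← log_mul (by positivity) (by positivity)]
      exact log_le_log (by linarith) h2
    have h4 : 0 ≤ log ((N : ℝ) + M) := log_nonneg h1
    calc ((N : ℝ) + M) * (2 + log ((N : ℝ) + M)) ≤ (c * L) * (2 + (log (1 + c) + log (1 + L))) :=
          mul_le_mul h (by linarith) (by linarith) (by positivity)
      _ ≤ (c * L) * ((2 + log (1 + c)) * (1 + log (1 + L))) := by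
          apply mul_le_mul_of_nonneg_left _ (by positivity)
          nlinarith
      _ = _ := by ring

theorem nb_cop (ha : 1 < a) (hb : 1 < b) : ∃ C : ℝ, 0 ≤ C ∧ ∀ x : ℝ, 2 ≤ x →
    (NB a b x ∩ Cp).Finite ∧
    |((NB a b x ∩ Cp).ncard : ℝ) - 6 / π ^ 2 * (log x ^ 2 / (log a * log b))| ≤
      C * (log x * (1 + log (1 + log x))) := by
  classical
  have hA : 0 < log a := log_pos ha
  have hB : 0 < log b := log_pos hb
  have hl2 : 0 < log 2 := log_pos (by norm_num)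
  obtain ⟨C1, hC1, h1⟩ := NB_count ha hb
  set c := 1 / log a + 1 / log b with hc
  have hc0 : 0 ≤ c := by positivity
  have k1 : 0 ≤ log (1 + c) := log_nonneg (by linarith)
  refine ⟨c * (2 + log (1 + c)) + c + 3 / log 2 + C1, by positivity, fun x hx => ?_⟩
  have hx0 : 0 < x := by linarith
  obtain ⟨hfin, hcnt⟩ := h1 x hx
  obtain ⟨bf, bl, -⟩ := box_count ha hb hx
  have hL2 : log 2 ≤ log x := log_le_log (by norm_num) hx
  set L := log x with hL
  have hL0 : 0 < L := by linarith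
  have k2 : 0 ≤ log (1 + L) := log_nonneg (by linarith)
  set U := L / log a with hU
  set V := L / log b with hV
  have hU0 : 0 ≤ U := by positivity
  have hV0 : 0 ≤ V := by positivity
  set N := ⌊U⌋₊ with hN
  set M := ⌊V⌋₊ with hM
  have n1 : (N : ℝ) ≤ U := Nat.floor_le hU0
  have n2 : U < N + 1 := Nat.lt_floor_add_one U
  have m1 : (M : ℝ) ≤ V := Nat.floor_le hV0
  have m2 : V < M + 1 := Nat.lt_floor_add_one V
  set Bx := {p : ℕ × ℕ | a ^ p.1 ≤ x ∧ b ^ p.2 ≤ x} with hBx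
  have hBmem : ∀ p : ℕ × ℕ, p ∈ Bx ↔ p.1 ≤ N ∧ p.2 ≤ M := by
    intro p
    rw [hBx, mem_ofPred_eq, pow_le_iff_log ha hx0, pow_le_iff_log hb hx0, hN, hM,
      Nat.le_floor_iff hU0, Nat.le_floor_iff hV0]
  have hsub : Bx ⊆ NB a b x := by
    rintro p ⟨h2, h3⟩
    have ha0 : 0 < a ^ p.1 := by positivity
    have hb0 : 0 < b ^ p.2 := by positivity
    refine ⟨?_, by nlinarith⟩
    rw [abs_le]
    constructor <;> linarith
  have hdiff := Set.ncard_sdiff_add_ncard_of_subset hsub hfin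
  have hmain : log x ^ 2 / (log a * log b) = U * V := by
    rw [hU, hV, ← hL]
    field_simp
  rw [hmain] at hcnt
  have hdiff' : ((NB a b x \ Bx).ncard : ℝ) ≤ C1 * L := by
    have h2 : ((NB a b x \ Bx).ncard : ℝ) + (Bx.ncard : ℝ) = ((NB a b x).ncard : ℝ) := by
      exact_mod_cast hdiff
    rw [abs_le] at hcnt
    linarith [hcnt.2]
  set S0 : Finset (ℕ × ℕ) := (Finset.Icc 1 N ×ˢ Finset.Icc 1 M).filter (fun p : ℕ × ℕ => p.1.Coprime p.2) with hS0
  have hlo : (S0 : Set (ℕ × ℕ)) ⊆ NB a b x ∩ Cp := by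
    intro p hp
    rw [Finset.mem_coe, hS0, Finset.mem_filter, Finset.mem_product, Finset.mem_Icc, Finset.mem_Icc] at hp
    exact ⟨hsub ((hBmem p).2 ⟨hp.1.1.2, hp.1.2.2⟩), hp.2⟩
  have hup : NB a b x ∩ Cp ⊆ ((S0 ∪ {(0, 1), (1, 0)} : Finset (ℕ × ℕ)) : Set (ℕ × ℕ)) ∪ (NB a b x \ Bx) := by
    rintro p ⟨h2, h3⟩
    by_cases h4 : p ∈ Bx
    · left
      have h5 := (hBmem p).1 h4
      obtain ⟨n, m⟩ := p
      simp only at h5
      change Nat.Coprime n m at h3
      rw [Finset.mem_coe, Finset.mem_union]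
      rcases Nat.eq_zero_or_pos n with h6 | h6
      · right
        subst h6
        rw [Nat.coprime_zero_left] at h3
        subst h3
        simp
      · rcases Nat.eq_zero_or_pos m with h7 | h7
        · right
          subst h7
          rw [Nat.coprime_zero_right] at h3
          subst h3
          simp
        · left
          rw [hS0, Finset.mem_filter, Finset.mem_product, Finset.mem_Icc, Finset.mem_Icc]
          exact ⟨⟨⟨h6, h5.1⟩, ⟨h7, h5.2⟩⟩, h3⟩
    · right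
      exact ⟨h2, h4⟩
  have hf2 : (NB a b x ∩ Cp).Finite := hfin.subset inter_subset_left
  refine ⟨hf2, ?_⟩
  have e1 : (cop N M : ℝ) ≤ ((NB a b x ∩ Cp).ncard : ℝ) := by
    have := Set.ncard_le_ncard hlo hf2
    rw [Set.ncard_coe_finset] at this
    exact_mod_cast this
  have e2 : ((NB a b x ∩ Cp).ncard : ℝ) ≤ (cop N M : ℝ) + 2 + C1 * L := by
    have h2 := (Set.ncard_le_ncard hup ((Finset.finite_toSet _).union (hfin.subset sdiff_subset))).trans
      (Set.ncard_union_le _ _)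
    rw [Set.ncard_coe_finset] at h2
    have h3 := Finset.card_union_le S0 {(0, 1), (1, 0)}
    have h4 : (({(0, 1), (1, 0)} : Finset (ℕ × ℕ))).card ≤ 2 := Finset.card_le_two
    have h5 : S0.card = cop N M := rfl
    have h6 : (NB a b x ∩ Cp).ncard ≤ cop N M + 2 + (NB a b x \ Bx).ncard := by omega
    have h7 : ((NB a b x ∩ Cp).ncard : ℝ) ≤ (cop N M : ℝ) + 2 + ((NB a b x \ Bx).ncard : ℝ) := by
      exact_mod_cast h6
    linarith
  have hcL : (N : ℝ) + M ≤ c * L := by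
    have : c * L = U + V := by
      rw [hc, hU, hV]
      ring
    rw [this]
    linarith
  have e3 := cop_bound' N M hc0 hL0.le hcL
  have hNM : |6 / π ^ 2 * ((N : ℝ) * M) - 6 / π ^ 2 * (U * V)| ≤ c * L + 1 := by
    rw [← mul_sub, abs_mul]
    have p1 : |6 / π ^ 2| ≤ 1 := by
      rw [abs_of_nonneg (by positivity), div_le_one (by positivity)]
      nlinarith [pi_gt_three]
    have q1 : (0 : ℝ) ≤ N := Nat.cast_nonneg _
    have q2 : (0 : ℝ) ≤ M := Nat.cast_nonneg _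
    have p2 : |(N : ℝ) * M - U * V| ≤ c * L + 1 := by
      rw [abs_le]
      constructor
      · nlinarith [mul_nonneg q1 q2, mul_nonneg (sub_nonneg.2 n1) q2, mul_nonneg (sub_nonneg.2 m1) q1, mul_nonneg (sub_nonneg.2 n1) (sub_nonneg.2 m1)]
      · nlinarith [mul_nonneg q1 q2, mul_le_mul n1 m1 q2 hU0]
    calc |6 / π ^ 2| * |(N : ℝ) * M - U * V| ≤ 1 * (c * L + 1) :=
          mul_le_mul p1 p2 (abs_nonneg _) zero_le_one
      _ = _ := one_mul _
  rw [hmain]
  set G := L * (1 + log (1 + L)) with hG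
  have hLG : L ≤ G := by
    rw [hG]
    nlinarith [mul_nonneg hL0.le k2]
  have h3L : 3 ≤ 3 / log 2 * L := by
    rw [div_mul_eq_mul_div, le_div_iff₀ hl2]
    linarith
  have t1 : c * L ≤ c * G := mul_le_mul_of_nonneg_left hLG hc0
  have t2 : 3 / log 2 * L ≤ 3 / log 2 * G := mul_le_mul_of_nonneg_left hLG (by positivity)
  have t3 : C1 * L ≤ C1 * G := mul_le_mul_of_nonneg_left hLG hC1
  have t4 : (c * (2 + log (1 + c)) + c + 3 / log 2 + C1) * G =
      c * (2 + log (1 + c)) * G + c * G + 3 / log 2 * G + C1 * G := by ring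
  rw [t4]
  rw [abs_le] at e3 hNM ⊢
  constructor <;> linarith [e3.1, e3.2, hNM.1, hNM.2]

/-- the coprime pairs with `|a ^ n - b ^ m| ≤ x` -/
def PS (a b x : ℝ) : Set (ℕ × ℕ) := {p | p.1.Coprime p.2 ∧ |a ^ p.1 - b ^ p.2| ≤ x}

theorem PS_eq (a b x : ℝ) : PS a b x = (NB a b x ∩ Cp) ∪ KS a b x := by
  ext p
  simp only [PS, NB, Cp, KS, mem_union, mem_inter_iff, mem_ofPred_eq]
  constructor
  · rintro ⟨h1, h2⟩
    rcases le_or_gt (a ^ p.1) (x ^ 2) with h3 | h3
    · exact Or.inl ⟨⟨h2, h3⟩, h1⟩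
    · exact Or.inr ⟨h1, h3, h2⟩
  · rintro (⟨⟨h1, h2⟩, h3⟩ | ⟨h1, h2, h3⟩)
    · exact ⟨h3, h1⟩
    · exact ⟨h1, h3⟩

theorem PS_disj (a b x : ℝ) : Disjoint (NB a b x ∩ Cp) (KS a b x) := by
  rw [Set.disjoint_left]
  rintro p ⟨⟨h1, h2⟩, h3⟩ ⟨h4, h5, h6⟩
  exact absurd h2 (not_le.2 h5)

/-- unconditional truncated count -/
theorem trunc (ha : 1 < a) (hb : 1 < b) : ∃ C : ℝ, 0 ≤ C ∧ ∀ x : ℝ, 2 ≤ x → ∀ h T : ℕ,
    C * log x ≤ T → T ≤ tow h →
    {p : ℕ × ℕ | p.1.Coprime p.2 ∧ p.1 ≤ T ∧ |a ^ p.1 - b ^ p.2| ≤ x}.Finite ∧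
    |(({p : ℕ × ℕ | p.1.Coprime p.2 ∧ p.1 ≤ T ∧ |a ^ p.1 - b ^ p.2| ≤ x}.ncard : ℕ) : ℝ) -
      6 / π ^ 2 * (log x ^ 2 / (log a * log b))| ≤ C * (log x * (1 + log (1 + log x))) + h := by
  have hA : 0 < log a := log_pos ha
  have hl2 : 0 < log 2 := log_pos (by norm_num)
  obtain ⟨C1, hC1, h1⟩ := nb_cop ha hb
  obtain ⟨C2, h2⟩ := thin ha hb
  refine ⟨C1 + C2 / log 2 + 2 / log a, by positivity, fun x hx h T hT hTh => ?_⟩
  have hx0 : 0 < x := by linarith
  have hL2 : log 2 ≤ log x := log_le_log (by norm_num) hx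
  have hL0 : 0 < log x := by linarith
  have k2 : 0 ≤ log (1 + log x) := log_nonneg (by linarith)
  obtain ⟨hf, hc⟩ := h1 x hx
  set S := {p : ℕ × ℕ | p.1.Coprime p.2 ∧ p.1 ≤ T ∧ |a ^ p.1 - b ^ p.2| ≤ x} with hS
  have hlo : NB a b x ∩ Cp ⊆ S := by
    rintro p ⟨⟨h3, h4⟩, h5⟩
    refine ⟨h5, ?_, h3⟩
    have h6 := (pow_le_iff_log ha (by positivity) p.1).1 h4
    rw [log_pow] at h6
    have h7 : ((2 : ℕ) : ℝ) * log x / log a ≤ (C1 + C2 / log 2 + 2 / log a) * log x := by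
      have : 0 ≤ (C1 + C2 / log 2) * log x := by positivity
      push_cast
      have e : 2 * log x / log a = 2 / log a * log x := by ring
      rw [e, add_mul]
      linarith
    exact_mod_cast h6.trans (h7.trans hT)
  have hLf := LL_fin ha hb (tow h)
  have hup : S ⊆ (NB a b x ∩ Cp) ∪ {l | l ∈ LL a b ∧ l.1 ≤ tow h} := by
    rintro p ⟨h3, h4, h5⟩
    rcases le_or_gt (a ^ p.1) (x ^ 2) with h6 | h6
    · exact Or.inl ⟨⟨h5, h6⟩, h3⟩
    · right
      refine ⟨⟨?_, h3, lt_of_le_of_lt (pow_le_pow_left₀ (abs_nonneg _) h5 2) h6⟩, h4.trans hTh⟩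
      by_contra h7
      have h8 : p.1 = 0 := by omega
      rw [h8, pow_zero] at h6
      nlinarith
  have hSf : S.Finite := (hf.union hLf).subset hup
  refine ⟨hSf, ?_⟩
  have e1 : ((NB a b x ∩ Cp).ncard : ℝ) ≤ (S.ncard : ℝ) := by
    exact_mod_cast Set.ncard_le_ncard hlo hSf
  have e2 : (S.ncard : ℝ) ≤ ((NB a b x ∩ Cp).ncard : ℝ) + (h + C2) := by
    have h3 := (Set.ncard_le_ncard hup (hf.union hLf)).trans (Set.ncard_union_le _ _)
    have h4 := h2 h
    exact_mod_cast h3.trans (Nat.add_le_add_left h4 _)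
  set G := log x * (1 + log (1 + log x)) with hG
  have hLG : log x ≤ G := by
    rw [hG]
    nlinarith [mul_nonneg hL0.le k2]
  have hG0 : 0 ≤ G := hL0.le.trans hLG
  have h5 : (C2 : ℝ) ≤ C2 / log 2 * G := by
    have : (C2 : ℝ) ≤ C2 / log 2 * log x := by
      rw [div_mul_eq_mul_div, le_div_iff₀ hl2]
      exact mul_le_mul_of_nonneg_left hL2 (Nat.cast_nonneg _)
    exact this.trans (mul_le_mul_of_nonneg_left hLG (by positivity))
  have h6 : (C1 + C2 / log 2 + 2 / log a) * G = C1 * G + C2 / log 2 * G + 2 / log a * G := by ring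
  have h7 : 0 ≤ 2 / log a * G := by positivity
  have h8 : (0 : ℝ) ≤ C2 / log 2 * G := by positivity
  have h9 : (0 : ℝ) ≤ h := Nat.cast_nonneg _
  rw [h6]
  rw [abs_le] at hc ⊢
  constructor <;> linarith [hc.1, hc.2]

end Pool.Agent.Helper36z
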