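import Mathlib
import Pool.Agent.Helper36z.Prim
import Pool.Agent.H491R3.PE.Crit

set_option autoImplicit false

/-!
# The count of all pairs and the count of the coprime pairs
-/

namespace Pool.Agent.Helper36z

open Real Filter Set Asymptotics
open Pool.Agent.H491R3.PE Pool.Agent.TH709.NC

variable {a b : ℝ}

theorem g_littleO : (fun x : ℝ => log x * (1 + log (1 + log x))) =o[atTop] (fun x : ℝ => log x ^ 2) := by
  have h1 : (fun y : ℝ => 1 + log (1 + y)) =o[atTop] (fun y : ℝ => y) := by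
    have h2 : (fun y : ℝ => log (1 + y)) =o[atTop] (fun y : ℝ => 1 + y) :=
      Real.isLittleO_log_id_atTop.comp_tendsto (tendsto_atTop_add_const_left _ 1 tendsto_id)
    have h3 : (fun y : ℝ => 1 + y) =O[atTop] (fun y : ℝ => y) := by
      refine IsBigO.of_bound 2 ?_
      filter_upwards [eventually_ge_atTop (1 : ℝ)] with y hy
      rw [Real.norm_eq_abs, Real.norm_eq_abs, abs_of_nonneg (by linarith), abs_of_nonneg (by linarith)]
      linarith
    have h4 : (fun _ : ℝ => (1 : ℝ)) =o[atTop] (fun y : ℝ => y) := isLittleO_const_id_atTop 1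
    exact h4.add (h2.trans_isBigO h3)
  have h5 := h1.comp_tendsto Real.tendsto_log_atTop
  have h6 := (isBigO_refl (fun x : ℝ => log x) atTop).mul_isLittleO h5
  refine h6.congr (fun x => rfl) (fun x => ?_)
  simp only [Function.comp]
  ring

theorem PS_littleO (ha : 1 < a) (hb : 1 < b) (hK : ∀ x, (KS a b x).Finite) :
    (fun x : ℝ => ((PS a b x).ncard : ℝ) - 6 / π ^ 2 * (log x ^ 2 / (log a * log b)) -
      ((KS a b x).ncard : ℝ)) =o[atTop] (fun x : ℝ => log x ^ 2) := by
  obtain ⟨C, hC0, hC⟩ := nb_cop ha hb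
  refine IsBigO.trans_isLittleO (g := fun x : ℝ => log x * (1 + log (1 + log x))) ?_ g_littleO
  refine IsBigO.of_bound C ?_
  filter_upwards [eventually_ge_atTop (2 : ℝ)] with x hx
  obtain ⟨h1, h2⟩ := hC x hx
  have h3 : ((PS a b x).ncard : ℝ) = ((NB a b x ∩ Cp).ncard : ℝ) + ((KS a b x).ncard : ℝ) := by
    rw [PS_eq]
    exact_mod_cast Set.ncard_union_eq (PS_disj a b x) h1 (hK x)
  have hl : 0 ≤ log x := log_nonneg (by linarith)
  have hl2 : 0 ≤ log (1 + log x) := log_nonneg (by linarith)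
  have hg : 0 ≤ log x * (1 + log (1 + log x)) := by positivity
  rw [Real.norm_eq_abs, Real.norm_eq_abs, abs_of_nonneg hg, h3]
  have e : ((NB a b x ∩ Cp).ncard : ℝ) + ((KS a b x).ncard : ℝ) -
      6 / π ^ 2 * (log x ^ 2 / (log a * log b)) - ((KS a b x).ncard : ℝ) =
      ((NB a b x ∩ Cp).ncard : ℝ) - 6 / π ^ 2 * (log x ^ 2 / (log a * log b)) := by ring
  rw [e]
  exact h2

theorem PS_finite_iff (ha : 1 < a) (hb : 1 < b) :
    (∀ x, (PS a b x).Finite) ↔ (∀ x, (KS a b x).Finite) := by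
  obtain ⟨C, -, hC⟩ := nb_cop ha hb
  constructor
  · intro h x
    refine (h x).subset ?_
    rintro p ⟨h1, h2, h3⟩
    exact ⟨h1, h3⟩
  · intro h x
    have h1 := (hC (max x 2) (le_max_right _ _)).1.union (h (max x 2))
    rw [← PS_eq] at h1
    refine h1.subset ?_
    rintro p ⟨h2, h3⟩
    exact ⟨h2, h3.trans (le_max_left _ _)⟩

theorem conv_iff (ha : 1 < a) (hb : 1 < b) (f : ℝ → ℝ) :
    f =o[atTop] (fun x : ℝ => 6 / π ^ 2 * (log x ^ 2 / (log a * log b))) ↔
      f =o[atTop] (fun x : ℝ => log x ^ 2) := by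
  have hA : 0 < log a := log_pos ha
  have hB : 0 < log b := log_pos hb
  have hpi : 0 < π := pi_pos
  have e : (fun x : ℝ => 6 / π ^ 2 * (log x ^ 2 / (log a * log b))) =
      (fun x : ℝ => (6 / π ^ 2 / (log a * log b)) * log x ^ 2) := by
    funext x
    ring
  rw [e]
  exact isLittleO_const_mul_right_iff (by positivity)

theorem prim_iff (ha : 1 < a) (hb : 1 < b) :
    ((∀ x, (PS a b x).Finite) ∧ (fun x : ℝ => ((PS a b x).ncard : ℝ)) ~[atTop]
      (fun x : ℝ => 6 / π ^ 2 * (log x ^ 2 / (log a * log b)))) ↔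
      ((∀ x, (KS a b x).Finite) ∧
        (fun x : ℝ => ((KS a b x).ncard : ℝ)) =o[atTop] (fun x : ℝ => log x ^ 2)) := by
  rw [PS_finite_iff ha hb]
  refine and_congr_right fun hK => ?_
  have hd := PS_littleO ha hb hK
  constructor
  · intro h
    have h1 := (conv_iff ha hb _).1 h
    have h2 := h1.sub hd
    refine h2.congr_left fun x => ?_
    simp only [Pi.sub_apply]
    ring
  · intro h
    have h2 := hd.add h
    refine (conv_iff ha hb _).2 (h2.congr_left fun x => ?_)
    simp only [Pi.sub_apply]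
    ring

/-- Q1 is the irrationality of `log a / log b` and the count of the coprime pairs -/
theorem main_iff (ha : 1 < a) (hb : 1 < b) :
    ((fun x : ℝ => ((NS a b x).ncard : ℝ)) ~[atTop] (fun x : ℝ => log x ^ 2 / (log a * log b))) ↔
      (Irrational (log a / log b) ∧ (∀ x, (PS a b x).Finite) ∧
        (fun x : ℝ => ((PS a b x).ncard : ℝ)) ~[atTop]
          (fun x : ℝ => 6 / π ^ 2 * (log x ^ 2 / (log a * log b)))) := by
  rw [criterion ha hb, prim_iff ha hb]

theorem SS_bdd_of_rational (ha : 1 < a) (hb : 1 < b) (h : ¬ Irrational (log a / log b)) :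
    ∃ N : ℕ, ∀ p ∈ SS a b, p.1 ≤ N := by
  obtain ⟨n₀, hn₀, h1⟩ := nearS ha hb
  have hA : 0 < log a := log_pos ha
  have hB : 0 < log b := log_pos hb
  unfold Irrational at h
  push Not at h
  obtain ⟨q, hq⟩ := h
  refine ⟨max n₀ q.den, fun p hp => ?_⟩
  by_contra hcon
  rw [not_le, max_lt_iff] at hcon
  obtain ⟨h2, h3⟩ := h1 p hp hcon.1.le
  have hn : (0 : ℝ) < p.1 := by exact_mod_cast (by omega : 0 < p.1)
  have hs : 0 < Real.sqrt a ^ p.1 := pow_pos (Real.sqrt_pos.2 (by linarith)) _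
  have h4 : 2 / log b / Real.sqrt a ^ p.1 < 1 / (2 * p.1) := by
    rw [div_div, div_lt_div_iff₀ (by positivity) (by positivity)]
    linarith
  have h5 : |(p.1 : ℝ) * (log a / log b) - p.2| < 1 / (2 * p.1) := lt_of_le_of_lt h3 h4
  have hd : (0 : ℝ) < q.den := by exact_mod_cast q.den_pos
  have hqd : (q : ℝ) * q.den = q.num := by
    have := Rat.mul_den_eq_num q
    exact_mod_cast this
  have h6 : |((p.1 : ℝ) * q.num - p.2 * q.den)| < 1 := by
    have e : (p.1 : ℝ) * q.num - p.2 * q.den = ((p.1 : ℝ) * (log a / log b) - p.2) * q.den := by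
      rw [← hq, ← hqd]
      ring
    rw [e, abs_mul, abs_of_pos hd]
    have h7 : |(p.1 : ℝ) * (log a / log b) - p.2| * q.den < 1 / (2 * p.1) * q.den :=
      mul_lt_mul_of_pos_right h5 hd
    have h8 : (1 : ℝ) / (2 * p.1) * q.den ≤ 1 := by
      rw [div_mul_eq_mul_div, one_mul, div_le_one (by positivity)]
      have : (q.den : ℝ) ≤ p.1 := by exact_mod_cast hcon.2.le
      linarith
    linarith
  have h9 : |((p.1 : ℤ) * q.num - p.2 * q.den)| < 1 := by exact_mod_cast h6
  have h10 : (p.1 : ℤ) * q.num = p.2 * q.den := by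
    have := Int.abs_lt_one_iff.1 h9
    linarith
  have h11 : (p.1 : ℤ) ∣ (p.2 : ℤ) * q.den := ⟨q.num, h10.symm⟩
  have h12 : p.1 ∣ p.2 * q.den := by exact_mod_cast h11
  have h13 : p.1 ∣ q.den := Nat.Coprime.dvd_of_dvd_mul_left hp.1 h12
  have h14 := Nat.le_of_dvd q.den_pos h13
  omega

theorem prim_of_rational (ha : 1 < a) (hb : 1 < b) (h : ¬ Irrational (log a / log b)) :
    (∀ x, (PS a b x).Finite) ∧ (fun x : ℝ => ((PS a b x).ncard : ℝ)) ~[atTop]
      (fun x : ℝ => 6 / π ^ 2 * (log x ^ 2 / (log a * log b))) := by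
  rw [prim_iff ha hb]
  obtain ⟨N, hN⟩ := SS_bdd_of_rational ha hb h
  have hKS : ∀ x, KS a b x ⊆ SS a b := fun x p hp => (KS_sub_SX a b x hp).1
  have hfin : ∀ x, 2 ≤ x → (KS a b x).Finite := by
    intro x hx
    refine (LL_fin ha hb N).subset fun p hp => ?_
    refine ⟨⟨?_, hp.1, (hKS x hp).2⟩, hN p (hKS x hp)⟩
    by_contra h7
    have h8 : p.1 = 0 := by omega
    have h9 := hp.2.1
    rw [h8, pow_zero] at h9
    nlinarith
  have hfin' : ∀ x, (KS a b x).Finite := by
    rw [← PS_finite_iff ha hb]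
    obtain ⟨C, -, hC⟩ := nb_cop ha hb
    intro x
    have h1 := (hC (max x 2) (le_max_right _ _)).1.union (hfin (max x 2) (le_max_right _ _))
    rw [← PS_eq] at h1
    refine h1.subset ?_
    rintro p ⟨h2, h3⟩
    exact ⟨h2, h3.trans (le_max_left _ _)⟩
  refine ⟨hfin', ?_⟩
  refine (isLittleO_zero (fun x : ℝ => log x ^ 2) atTop).congr' ?_ EventuallyEq.rfl
  filter_upwards [eventually_ge_atTop (max 1 (a ^ N))] with x hx
  have hx1 : 1 ≤ x := (le_max_left _ _).trans hx
  have hx2 : a ^ N ≤ x := (le_max_right _ _).trans hx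
  have hE : KS a b x = ∅ := by
    rw [Set.eq_empty_iff_forall_notMem]
    intro p hp
    have h1 := hN p (hKS x hp)
    have h2 := hp.2.1
    have h3 : a ^ p.1 ≤ a ^ N := pow_le_pow_right₀ ha.le h1
    nlinarith
  rw [hE, Set.ncard_empty, Nat.cast_zero]

end Pool.Agent.Helper36z
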