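import Mathlib
import Pool.Agent.Helper36z.Eqv

set_option autoImplicit false

/-!
# Pairs with a given greatest common divisor
-/

namespace Pool.Agent.Helper36z

open Real Filter Set Asymptotics
open Pool.Agent.H491R3.PE Pool.Agent.TH709.NC

variable {a b : ℝ}

theorem gcd_trunc (ha : 1 < a) (hb : 1 < b) (g : ℕ) (hg : 1 ≤ g) : ∃ C : ℝ, 0 ≤ C ∧ ∀ x : ℝ, 2 ≤ x →
    ∀ h T : ℕ, C * log x ≤ T → T ≤ tow h →
    {p : ℕ × ℕ | p.1.gcd p.2 = g ∧ p.1 ≤ T ∧ |a ^ p.1 - b ^ p.2| ≤ x}.Finite ∧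
    |(({p : ℕ × ℕ | p.1.gcd p.2 = g ∧ p.1 ≤ T ∧ |a ^ p.1 - b ^ p.2| ≤ x}.ncard : ℕ) : ℝ) -
      6 / π ^ 2 * (log x ^ 2 / ((g : ℝ) ^ 2 * (log a * log b)))| ≤
        C * (log x * (1 + log (1 + log x))) + h := by
  have hl2 : 0 < log 2 := log_pos (by norm_num)
  have ha' : 1 < a ^ g := one_lt_pow₀ ha (by omega)
  have hb' : 1 < b ^ g := one_lt_pow₀ hb (by omega)
  have hg0 : (0 : ℝ) < g := by exact_mod_cast hg
  have hg1 : (1 : ℝ) ≤ g := by exact_mod_cast hg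
  obtain ⟨C1, hC1, h1⟩ := trunc ha' hb'
  refine ⟨g * (C1 + 1 / log 2), by positivity, fun x hx h T hT hTh => ?_⟩
  have hL2 : log 2 ≤ log x := log_le_log (by norm_num) hx
  have hL0 : 0 < log x := by linarith
  have k2 : 0 ≤ log (1 + log x) := log_nonneg (by linarith)
  have hT1 : C1 * log x ≤ ((T / g : ℕ) : ℝ) := by
    have h2 : (T : ℝ) < ((T / g : ℕ) : ℝ) * g + g := by
      exact_mod_cast Nat.lt_div_mul_add (a := T) (b := g) (by omega)
    have h3 : 1 ≤ 1 / log 2 * log x := by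
      rw [div_mul_eq_mul_div, one_mul, le_div_iff₀ hl2]
      linarith
    have h4 : g * (C1 * log x + 1) ≤ g * (((T / g : ℕ) : ℝ) + 1) := by
      nlinarith
    have h5 := le_of_mul_le_mul_left h4 hg0
    linarith
  obtain ⟨hf, hc⟩ := h1 x hx h (T / g) hT1 ((Nat.div_le_self _ _).trans hTh)
  set S' := {p : ℕ × ℕ | p.1.Coprime p.2 ∧ p.1 ≤ T / g ∧ |(a ^ g) ^ p.1 - (b ^ g) ^ p.2| ≤ x} with hS'
  have himg : {p : ℕ × ℕ | p.1.gcd p.2 = g ∧ p.1 ≤ T ∧ |a ^ p.1 - b ^ p.2| ≤ x} =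
      (fun q : ℕ × ℕ => (g * q.1, g * q.2)) '' S' := by
    ext p
    rw [Set.mem_image]
    constructor
    · rintro ⟨h2, h3, h4⟩
      obtain ⟨n, m⟩ := p
      simp only at h2 h3 h4
      obtain ⟨n', hn⟩ : g ∣ n := h2 ▸ Nat.gcd_dvd_left n m
      obtain ⟨m', hm⟩ : g ∣ m := h2 ▸ Nat.gcd_dvd_right n m
      subst hn
      subst hm
      refine ⟨(n', m'), ⟨?_, ?_, ?_⟩, rfl⟩
      · rw [Nat.gcd_mul_left] at h2
        exact Nat.eq_of_mul_eq_mul_left (by omega) (h2.trans (mul_one g).symm)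
      · rw [Nat.le_div_iff_mul_le (by omega)]
        rw [mul_comm] at h3
        exact h3
      · rw [pow_mul, pow_mul] at h4
        exact h4
    · rintro ⟨q, ⟨h2, h3, h4⟩, rfl⟩
      refine ⟨?_, ?_, ?_⟩
      · change Nat.gcd (g * q.1) (g * q.2) = g
        rw [Nat.gcd_mul_left, h2.gcd_eq_one, mul_one]
      · change g * q.1 ≤ T
        rw [Nat.le_div_iff_mul_le (by omega)] at h3
        rw [mul_comm]
        exact h3
      · change |a ^ (g * q.1) - b ^ (g * q.2)| ≤ x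
        rw [pow_mul, pow_mul]
        exact h4
  have hinj : Function.Injective (fun q : ℕ × ℕ => (g * q.1, g * q.2)) := by
    intro p q hpq
    have h2 := (Prod.mk.inj hpq).1
    have h3 := (Prod.mk.inj hpq).2
    exact Prod.ext (Nat.eq_of_mul_eq_mul_left (by omega) h2) (Nat.eq_of_mul_eq_mul_left (by omega) h3)
  rw [himg]
  refine ⟨hf.image _, ?_⟩
  rw [Set.ncard_image_of_injective _ hinj]
  have e : log x ^ 2 / ((g : ℝ) ^ 2 * (log a * log b)) = log x ^ 2 / (log (a ^ g) * log (b ^ g)) := by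
    rw [log_pow, log_pow]
    congr 1
    ring
  rw [e]
  refine hc.trans ?_
  have h6 : C1 ≤ g * (C1 + 1 / log 2) := by
    have : 0 ≤ 1 / log 2 := by positivity
    nlinarith
  have h7 : 0 ≤ log x * (1 + log (1 + log x)) := by positivity
  have := mul_le_mul_of_nonneg_right h6 h7
  linarith

theorem NS_finite_of_equiv (ha : 1 < a) (hb : 1 < b)
    (h : (fun x : ℝ => ((NS a b x).ncard : ℝ)) ~[atTop] (fun x : ℝ => log x ^ 2 / (log a * log b))) (x : ℝ) :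
    (NS a b x).Finite := by
  obtain ⟨h1, h2, -⟩ := (criterion ha hb).1 h
  obtain ⟨C, hC⟩ := count ha hb h1 h2
  refine (hC (max x 2) (le_max_right _ _)).1.subset ?_
  intro p hp
  have h3 : |a ^ p.1 - b ^ p.2| ≤ x := hp
  exact h3.trans (le_max_left _ _)

end Pool.Agent.Helper36z
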