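import Mathlib

set_option autoImplicit false

/-!
# Consequences of a simultaneous irrationality measure for a common generator
-/

namespace Pool.Agent.Helper36z.CG

open Polynomial Filter Topology

/-- simultaneous measure of exponent `w` for the numbers `x j`, `j ∈ T` -/
def Meas (T : Finset ℕ) (x : ℕ → ℝ) (w : ℕ) (c : ℝ) : Prop :=
  ∀ (a : ℕ → ℤ) (q : ℕ), 0 < q → ∃ j ∈ T, c / (q : ℝ) ^ w ≤ |x j - (a j : ℝ) / q|

lemma int_val (P : ℤ[X]) (d : ℕ) (hP : P.natDegree ≤ d) (p : ℤ) (q : ℕ) (hq : 0 < q) :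
    ∃ A : ℤ, (A : ℝ) = (q : ℝ) ^ d * aeval ((p : ℝ) / q) P := by
  have hq0 : (q : ℝ) ≠ 0 := by exact_mod_cast hq.ne'
  refine ⟨∑ i ∈ Finset.range (d + 1), P.coeff i * p ^ i * (q : ℤ) ^ (d - i), ?_⟩
  rw [aeval_eq_sum_range' (Nat.lt_succ_of_le hP), Finset.mul_sum]
  push_cast
  refine Finset.sum_congr rfl fun i hi => ?_
  rw [Finset.mem_range] at hi
  have h1 : (q : ℝ) ^ d = (q : ℝ) ^ (d - i) * (q : ℝ) ^ i := by
    rw [← pow_add]
    congr 1
    omega
  rw [zsmul_eq_mul, div_pow, h1]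
  field_simp

theorem core {E : Type*} [NormedAddCommGroup E] (T : Finset ℕ) (x : ℕ → ℝ) (w : ℕ) {c : ℝ} (hc : 0 < c)
    (h : Meas T x w c) (η : E) (d : ℕ) (G : E → ℝ) (F : ℕ → E → ℝ) (hQ : G η ≠ 0)
    (hcont : ContinuousAt G η)
    (hLip : ∀ j ∈ T, (fun t => F j t / G t - F j η / G η) =O[𝓝 η] (fun t => t - η))
    (hx : ∀ j ∈ T, x j * G η = F j η) :
    ∃ C : ℝ, 0 < C ∧ ∀ (t : E) (q : ℕ), 0 < q → (∃ B : ℤ, (B : ℝ) = (q : ℝ) ^ d * G t) →
      (∀ j ∈ T, ∃ A : ℤ, (A : ℝ) = (q : ℝ) ^ d * F j t) → C / (q : ℝ) ^ (w * d) ≤ ‖η - t‖ := by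
  classical
  have hL : ∀ j : ℕ, ∃ L : ℝ, j ∈ T → ∀ᶠ t in 𝓝 η, |F j t / G t - F j η / G η| ≤ L * ‖t - η‖ := by
    intro j
    by_cases hj : j ∈ T
    · obtain ⟨L, hL⟩ := (hLip j hj).bound
      refine ⟨L, fun _ => ?_⟩
      filter_upwards [hL] with t ht
      simpa [Real.norm_eq_abs] using ht
    · exact ⟨0, fun h => absurd h hj⟩
  choose L hL using hL
  set K := ∑ j ∈ T, |L j| + 1 with hK
  have hK0 : 0 < K := by
    have : 0 ≤ ∑ j ∈ T, |L j| := Finset.sum_nonneg fun j _ => abs_nonneg _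
    linarith
  have hLK : ∀ j ∈ T, L j ≤ K := by
    intro j hj
    have h1 : |L j| ≤ ∑ j ∈ T, |L j| := Finset.single_le_sum (f := fun j => |L j|) (fun j _ => abs_nonneg _) hj
    have h2 := le_abs_self (L j)
    linarith
  set M := |G η| + 1 with hM
  have hM0 : 0 < M := by positivity
  have hev : ∀ᶠ t in 𝓝 η, (∀ j ∈ T, |F j t / G t - F j η / G η| ≤ L j * ‖t - η‖) ∧
      G t ≠ 0 ∧ |G t| < M := by
    refine ((Filter.eventually_all_finset T).2 fun j hj => hL j hj).and ((hcont.eventually_ne hQ).and ?_)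
    have h3 : ContinuousAt (fun t : E => |G t|) η := hcont.abs
    exact h3.eventually_lt_const (by rw [hM]; linarith)
  obtain ⟨δ, hδ, hball⟩ := Metric.eventually_nhds_iff.1 hev
  refine ⟨min δ (c / (M ^ w * K)), lt_min hδ (by positivity), fun t q hq hBt hAt => ?_⟩
  have hqR : (1 : ℝ) ≤ q := by exact_mod_cast hq
  have hq0 : (0 : ℝ) < q := by linarith
  have hqp : (1 : ℝ) ≤ (q : ℝ) ^ (w * d) := one_le_pow₀ hqR
  rcases le_or_gt δ ‖η - t‖ with hbig | hsmall
  · refine le_trans ?_ hbig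
    rw [div_le_iff₀ (by positivity)]
    calc min δ (c / (M ^ w * K)) ≤ δ := min_le_left _ _
      _ = δ * 1 := (mul_one δ).symm
      _ ≤ δ * (q : ℝ) ^ (w * d) := mul_le_mul_of_nonneg_left hqp hδ.le
  · have hd : dist t η < δ := by
      rw [dist_eq_norm, norm_sub_rev]
      exact hsmall
    obtain ⟨h1, h2, h3⟩ := hball hd
    obtain ⟨B, hB⟩ := hBt
    have hA : ∀ j : ℕ, ∃ A : ℤ, j ∈ T → (A : ℝ) = (q : ℝ) ^ d * F j t := by
      intro j
      by_cases hj : j ∈ T
      · obtain ⟨A, hA⟩ := hAt j hj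
        exact ⟨A, fun _ => hA⟩
      · exact ⟨0, fun h => absurd h hj⟩
    choose A hA using hA
    have hqd : (0 : ℝ) < (q : ℝ) ^ d := by positivity
    have hB0 : (B : ℝ) ≠ 0 := by
      rw [hB]
      exact mul_ne_zero hqd.ne' h2
    have hBz : B ≠ 0 := by exact_mod_cast hB0
    obtain ⟨j, hj, h4⟩ := h (fun j => B.sign * A j) B.natAbs (Int.natAbs_pos.2 hBz)
    have hnat : ((B.natAbs : ℕ) : ℝ) = |(B : ℝ)| := by
      rw [Nat.cast_natAbs]
      push_cast
      rfl
    have hfr : ((B.sign * A j : ℤ) : ℝ) / ((B.natAbs : ℕ) : ℝ) = F j t / G t := by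
      have h5 : (B : ℝ) = (B.sign : ℝ) * ((B.natAbs : ℕ) : ℝ) := by
        have h' : ((B.sign * (B.natAbs : ℤ) : ℤ) : ℝ) = (B : ℝ) := by rw [Int.sign_mul_natAbs]
        rw [Int.cast_mul, Int.cast_natCast] at h'
        exact h'.symm
      have hs : (B.sign : ℝ) * (B.sign : ℝ) = 1 := by
        have : B.sign * B.sign = 1 := by
          rcases lt_or_gt_of_ne hBz with h | h
          · rw [Int.sign_eq_neg_one_of_neg h]
            norm_num
          · rw [Int.sign_eq_one_of_pos h]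
            norm_num
        exact_mod_cast this
      have hn0 : ((B.natAbs : ℕ) : ℝ) ≠ 0 := by
        rw [hnat]
        exact abs_ne_zero.2 hB0
      have h6 : ((B.sign * A j : ℤ) : ℝ) / ((B.natAbs : ℕ) : ℝ) = (A j : ℝ) / B := by
        rw [div_eq_div_iff hn0 hB0]
        push_cast
        rw [h5]
        linear_combination ((A j : ℝ) * ((B.natAbs : ℕ) : ℝ)) * hs
      rw [h6, hA j hj, hB]
      exact mul_div_mul_left _ _ hqd.ne'
    have hxj : x j = F j η / G η := by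
      rw [eq_div_iff hQ]
      exact hx j hj
    rw [hfr, hxj, abs_sub_comm] at h4
    have h7 := h4.trans ((h1 j hj).trans (mul_le_mul_of_nonneg_right (hLK j hj) (norm_nonneg _)))
    have hBle : ((B.natAbs : ℕ) : ℝ) ≤ (q : ℝ) ^ d * M := by
      rw [hnat, hB, abs_mul, abs_of_pos hqd]
      exact mul_le_mul_of_nonneg_left h3.le hqd.le
    have hBpos : (0 : ℝ) < ((B.natAbs : ℕ) : ℝ) := by
      rw [hnat]
      exact abs_pos.2 hB0
    have h8 : c / ((q : ℝ) ^ d * M) ^ w ≤ K * ‖t - η‖ := by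
      refine le_trans ?_ h7
      apply div_le_div_of_nonneg_left hc.le (by positivity)
      exact pow_le_pow_left₀ hBpos.le hBle w
    have h9 : ((q : ℝ) ^ d * M) ^ w = (q : ℝ) ^ (w * d) * M ^ w := by
      rw [mul_pow, ← pow_mul, mul_comm d w]
    rw [h9, norm_sub_rev] at h8
    calc min δ (c / (M ^ w * K)) / (q : ℝ) ^ (w * d) ≤ c / (M ^ w * K) / (q : ℝ) ^ (w * d) :=
          div_le_div_of_nonneg_right (min_le_right _ _) (by positivity)
      _ = c / ((q : ℝ) ^ (w * d) * M ^ w) / K := by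
          field_simp
      _ ≤ ‖η - t‖ := by
          rw [div_le_iff₀ hK0]
          linarith

theorem common (T : Finset ℕ) (x : ℕ → ℝ) (w : ℕ) {c : ℝ} (hc : 0 < c) (h : Meas T x w c)
    (η : ℝ) (d : ℕ) (Q : ℤ[X]) (P : ℕ → ℤ[X]) (hQd : Q.natDegree ≤ d)
    (hPd : ∀ j ∈ T, (P j).natDegree ≤ d) (hQ : aeval η Q ≠ 0)
    (hx : ∀ j ∈ T, x j * aeval η Q = aeval η (P j)) :
    ∃ C : ℝ, 0 < C ∧ ∀ (p : ℤ) (q : ℕ), 0 < q → C / (q : ℝ) ^ (w * d) ≤ |η - p / q| := by
  obtain ⟨C, hC, hmain⟩ := core T x w hc h η d (fun t => aeval t Q) (fun j t => aeval t (P j)) hQ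
    (Polynomial.hasDerivAt_aeval Q η).continuousAt
    (fun j _ => ((Polynomial.hasDerivAt_aeval (P j) η).div (Polynomial.hasDerivAt_aeval Q η) hQ).isBigO_sub)
    hx
  refine ⟨C, hC, fun p q hq => ?_⟩
  exact hmain ((p : ℝ) / q) q hq (int_val Q d hQd p q hq) (fun j hj => int_val (P j) d (hPd j hj) p q hq)

lemma int_val_mv {m : ℕ} (P : MvPolynomial (Fin m) ℤ) (d : ℕ) (hP : P.totalDegree ≤ d) (p : Fin m → ℤ)
    (q : ℕ) (hq : 0 < q) :
    ∃ A : ℤ, (A : ℝ) = (q : ℝ) ^ d * MvPolynomial.aeval (fun i => (p i : ℝ) / q) P := by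
  have hq0 : (q : ℝ) ≠ 0 := by exact_mod_cast hq.ne'
  refine ⟨∑ s ∈ P.support, P.coeff s * (∏ i, p i ^ s i) * (q : ℤ) ^ (d - ∑ i, s i), ?_⟩
  rw [MvPolynomial.aeval_def, MvPolynomial.eval₂_eq', Finset.mul_sum]
  push_cast
  refine Finset.sum_congr rfl fun s hs => ?_
  have h1 : ∑ i, s i ≤ d := by
    have h2 := MvPolynomial.le_totalDegree hs
    rw [Finsupp.sum_fintype _ _ (fun _ => rfl)] at h2
    exact h2.trans hP
  have h3 : (q : ℝ) ^ d = (q : ℝ) ^ (d - ∑ i, s i) * (q : ℝ) ^ (∑ i, s i) := by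
    rw [← pow_add]
    congr 1
    omega
  have h4 : ∏ i, ((p i : ℝ) / q) ^ s i = (∏ i, (p i : ℝ) ^ s i) / (q : ℝ) ^ (∑ i, s i) := by
    rw [← Finset.prod_pow_eq_pow_sum, ← Finset.prod_div_distrib]
    exact Finset.prod_congr rfl fun i _ => div_pow _ _ _
  rw [h3, h4]
  simp only [algebraMap_int_eq, eq_intCast]
  field_simp

lemma mv_bigO {m : ℕ} (η : Fin m → ℝ) (P : MvPolynomial (Fin m) ℤ) :
    ContinuousAt (fun t : Fin m → ℝ => MvPolynomial.aeval t P) η ∧
    (fun t : Fin m → ℝ => MvPolynomial.aeval t P - MvPolynomial.aeval η P) =O[𝓝 η] (fun t => t - η) := by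
  induction P using MvPolynomial.induction_on with
  | C a =>
    simp only [MvPolynomial.algHom_C, sub_self]
    exact ⟨continuousAt_const, Asymptotics.isBigO_zero _ _⟩
  | add p q hp hq =>
    simp only [map_add]
    refine ⟨hp.1.add hq.1, ?_⟩
    refine (hp.2.add hq.2).congr_left fun t => ?_
    ring
  | mul_X p i hp =>
    simp only [map_mul, MvPolynomial.aeval_X]
    have hX : ContinuousAt (fun t : Fin m → ℝ => t i) η := (continuous_apply i).continuousAt
    refine ⟨hp.1.mul hX, ?_⟩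
    have h1 : (fun t : Fin m → ℝ => (MvPolynomial.aeval t p - MvPolynomial.aeval η p) * t i) =O[𝓝 η]
        (fun t => t - η) := by
      have h2 : (fun t : Fin m → ℝ => t i) =O[𝓝 η] (fun _ => (1 : ℝ)) := hX.isBigO_one ℝ
      have h3 := hp.2.norm_right.mul h2
      simp only [mul_one] at h3
      exact h3.of_norm_right
    have h4 : (fun t : Fin m → ℝ => MvPolynomial.aeval η p * (t i - η i)) =O[𝓝 η] (fun t => t - η) := by
      refine Asymptotics.IsBigO.const_mul_left ?_ _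
      refine Asymptotics.IsBigO.of_bound 1 (Filter.Eventually.of_forall fun t => ?_)
      rw [one_mul]
      exact norm_le_pi_norm (t - η) i
    refine (h1.add h4).congr_left fun t => ?_
    ring

lemma quot_bigO {m : ℕ} (η : Fin m → ℝ) (P Q : MvPolynomial (Fin m) ℤ) (hQ : MvPolynomial.aeval η Q ≠ 0) :
    (fun t : Fin m → ℝ => (MvPolynomial.aeval t P : ℝ) / MvPolynomial.aeval t Q -
      (MvPolynomial.aeval η P : ℝ) / MvPolynomial.aeval η Q) =O[𝓝 η] (fun t => t - η) := by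
  obtain ⟨c1, b1⟩ := mv_bigO η P
  obtain ⟨c2, b2⟩ := mv_bigO η Q
  have h1 : (fun t : Fin m → ℝ => (MvPolynomial.aeval t P - MvPolynomial.aeval η P) *
      (MvPolynomial.aeval η Q : ℝ) - (MvPolynomial.aeval η P : ℝ) *
        (MvPolynomial.aeval t Q - MvPolynomial.aeval η Q)) =O[𝓝 η] (fun t => t - η) := by
    refine Asymptotics.IsBigO.sub ?_ (Asymptotics.IsBigO.const_mul_left b2 _)
    refine (Asymptotics.IsBigO.const_mul_left b1 (MvPolynomial.aeval η Q : ℝ)).congr_left fun t => ?_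
    ring
  have h2 : (fun t : Fin m → ℝ => ((MvPolynomial.aeval t Q : ℝ) * MvPolynomial.aeval η Q)⁻¹) =O[𝓝 η]
      (fun _ => (1 : ℝ)) := by
    have h3 : ContinuousAt (fun t : Fin m → ℝ => ((MvPolynomial.aeval t Q : ℝ) * MvPolynomial.aeval η Q)⁻¹) η :=
      (c2.mul continuousAt_const).inv₀ (mul_ne_zero hQ hQ)
    exact h3.isBigO_one ℝ
  have h4 := h1.norm_right.mul h2
  simp only [mul_one] at h4
  refine (h4.of_norm_right).congr' ?_ Filter.EventuallyEq.rfl
  filter_upwards [c2.eventually_ne hQ] with t ht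
  field_simp
  ring

theorem common_mv {m : ℕ} (T : Finset ℕ) (x : ℕ → ℝ) (w : ℕ) {c : ℝ} (hc : 0 < c) (h : Meas T x w c)
    (η : Fin m → ℝ) (d : ℕ) (Q : MvPolynomial (Fin m) ℤ) (P : ℕ → MvPolynomial (Fin m) ℤ)
    (hQd : Q.totalDegree ≤ d) (hPd : ∀ j ∈ T, (P j).totalDegree ≤ d) (hQ : MvPolynomial.aeval η Q ≠ 0)
    (hx : ∀ j ∈ T, x j * MvPolynomial.aeval η Q = MvPolynomial.aeval η (P j)) :
    ∃ C : ℝ, 0 < C ∧ ∀ (p : Fin m → ℤ) (q : ℕ), 0 < q → ∃ i, C / (q : ℝ) ^ (w * d) ≤ |η i - p i / q| := by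
  obtain ⟨C, hC, hmain⟩ := core T x w hc h η d (fun t => MvPolynomial.aeval t Q)
    (fun j t => MvPolynomial.aeval t (P j)) hQ (mv_bigO η Q).1 (fun j _ => quot_bigO η (P j) Q hQ) hx
  refine ⟨C, hC, fun p q hq => ?_⟩
  by_contra hcon
  push Not at hcon
  have h1 := hmain (fun i => (p i : ℝ) / q) q hq (int_val_mv Q d hQd p q hq)
    (fun j hj => int_val_mv (P j) d (hPd j hj) p q hq)
  have hq0 : (0 : ℝ) < q := by exact_mod_cast hq
  have h2 : ‖η - fun i => (p i : ℝ) / q‖ < C / (q : ℝ) ^ (w * d) := by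
    rw [pi_norm_lt_iff (by positivity)]
    intro i
    exact hcon i
  linarith

theorem dichotomy (T : Finset ℕ) (x : ℕ → ℝ) (w : ℕ) {c : ℝ} (hc : 0 < c) (h : Meas T x w c) :
    (∃ i ∈ T, ∃ j ∈ T, LinearIndependent ℚ ![(1 : ℝ), x i, x j]) ∨
      (∀ i ∈ T, Irrational (x i) → ∃ C : ℝ, 0 < C ∧ ∀ (p : ℤ) (q : ℕ), 0 < q →
        C / (q : ℝ) ^ w ≤ |x i - p / q|) := by
  classical
  by_cases H : ∃ i ∈ T, ∃ j ∈ T, LinearIndependent ℚ ![(1 : ℝ), x i, x j]
  · exact Or.inl H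
  · right
    push Not at H
    intro i hi hirr
    have h1 : ∀ j : ℕ, ∃ r s : ℚ, j ∈ T → x j = r + s * x i := by
      intro j
      by_cases hj : j ∈ T
      · obtain ⟨g, hg, k, hk⟩ := Fintype.not_linearIndependent_iff.1 (H i hi j hj)
        rw [Fin.sum_univ_three] at hg
        simp only [Matrix.cons_val_zero, Matrix.cons_val_one, Matrix.cons_val_two, Matrix.head_cons,
          Matrix.tail_cons, Rat.smul_def, mul_one] at hg
        have g2 : g 2 ≠ 0 := by
          intro h0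
          rw [h0] at hg
          simp only [Rat.cast_zero, zero_mul, add_zero] at hg
          have g1 : g 1 = 0 := by
            by_contra h3
            apply hirr
            refine ⟨-g 0 / g 1, ?_⟩
            have h4 : ((g 1 : ℚ) : ℝ) ≠ 0 := by exact_mod_cast h3
            push_cast
            rw [div_eq_iff h4]
            linarith
          rw [g1] at hg
          simp only [Rat.cast_zero, zero_mul, add_zero, Rat.cast_eq_zero] at hg
          fin_cases k
          · exact hk hg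
          · exact hk g1
          · exact hk h0
        have h5 : ((g 2 : ℚ) : ℝ) ≠ 0 := by exact_mod_cast g2
        refine ⟨-g 0 / g 2, -g 1 / g 2, fun _ => ?_⟩
        push_cast
        field_simp
        linarith
      · exact ⟨0, 0, fun h => absurd h hj⟩
    choose r s hrs using h1
    set D : ℕ := ∏ j ∈ T, ((r j).den * (s j).den) with hD
    have hD0 : D ≠ 0 := Finset.prod_ne_zero_iff.2 fun j _ => mul_ne_zero (r j).den_ne_zero (s j).den_ne_zero
    have hint : ∀ (z : ℚ), z.den ∣ D → ∃ u : ℤ, (u : ℝ) = D * (z : ℝ) := by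
      rintro z ⟨e, he⟩
      refine ⟨e * z.num, ?_⟩
      have h6 : (z : ℝ) * z.den = z.num := by
        have := Rat.mul_den_eq_num z
        exact_mod_cast this
      rw [he]
      push_cast
      rw [← h6]
      ring
    have hu : ∀ j : ℕ, ∃ u v : ℤ, j ∈ T → (u : ℝ) = D * (r j : ℝ) ∧ (v : ℝ) = D * (s j : ℝ) := by
      intro j
      by_cases hj : j ∈ T
      · have h7 : (r j).den * (s j).den ∣ D := Finset.dvd_prod_of_mem _ hj
        obtain ⟨u, hu⟩ := hint (r j) ((Dvd.intro _ rfl).trans h7)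
        obtain ⟨v, hv⟩ := hint (s j) ((Dvd.intro_left _ rfl).trans h7)
        exact ⟨u, v, fun _ => ⟨hu, hv⟩⟩
      · exact ⟨0, 0, fun h => absurd h hj⟩
    choose u v huv using hu
    have hmain := common T x w hc h (x i) 1 (C (D : ℤ)) (fun j => C (v j) * X + C (u j))
      (by rw [natDegree_C]; omega) (fun j _ => natDegree_linear_le)
      (by
        simp only [aeval_C]
        simpa using hD0)
      (fun j hj => by
        obtain ⟨h8, h9⟩ := huv j hj
        simp only [map_add, map_mul, aeval_C, aeval_X]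
        simp only [algebraMap_int_eq, eq_intCast, Int.cast_natCast]
        rw [h8, h9, hrs j hj]
        ring)
    rw [mul_one] at hmain
    exact hmain

end Pool.Agent.Helper36z.CG
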